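import Pool.Agent.H679R2.Mix.Csp

/-! # T3: the constraint satisfaction problem walks along the relation (helper829) -/

set_option autoImplicit false
set_option linter.unusedSimpArgs false
set_option linter.unusedVariables false

namespace Pool.Agent.NPC.Mix.T3

open Pool.Agent.NPC.Mix

variable {V : Type}

/-- structured form of solutions -/
structure SolC (φ : List (List (Bool × V))) (X : ℕ → V) (n : ℕ) (f : XL V → ℕ) : Prop where
  le2 : ∀ x, f x ≤ 2
  two : ∀ x, twoX x = true → f x ≤ 1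
  w1 : ¬ (f vhP = 0 ∧ f vhQ = 0)
  w2 : ¬ (f vβ = 1 ∧ f vhP = 1)
  w3 : ¬ (f vβ = 2 ∧ f vhQ = 1)
  w4 : ¬ (f vz = 1 ∧ f (Sum.inl (X 0)) = 0)
  w5 : ¬ (f vz = 1 ∧ f vhP = 0)
  p0 : ∀ i < n, ¬ (f (vP i) = 0 ∧ f (Sum.inl (X i)) = 1)
  p1 : ∀ i < n, ¬ (f (vP i) = 1 ∧ f (Sum.inl (X i)) = 0)
  p2 : ∀ i < n, ¬ (f (vP i) = 2 ∧ f vhP = 1)
  q0 : ∀ i < n, ¬ (f (vQ i) = 0 ∧ f (Sum.inl (X (n + i))) = 1)
  q1 : ∀ i < n, ¬ (f (vQ i) = 1 ∧ f (Sum.inl (X (n + i))) = 0)
  q2 : ∀ i < n, ¬ (f (vQ i) = 2 ∧ f vhQ = 1)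
  c0 : ∀ i C, φ[i]? = some C → ∀ j l, C[j]? = some l →
    ¬ (f (vc i j) = 0 ∧ f (Sum.inl l.2) = if l.1 then 0 else 1)
  c1 : ∀ i C, φ[i]? = some C → ∀ j, j + 1 < C.length → ¬ (f (vc i j) = 1 ∧ f (vc i (j + 1)) = 2)
  c2 : ∀ i C, φ[i]? = some C → ∀ j, j + 1 = C.length → ¬ (f (vc i j) = 1 ∧ f vβ = 0)

lemma sol_iff (φ : List (List (Bool × V))) (X : ℕ → V) (n : ℕ) (f : XL V → ℕ) :
    (cspOf φ X n).Sol f ↔ SolC φ X n f := by
  constructor
  · rintro ⟨h1, h2, h3⟩
    have hP : ∀ w ∈ holdWires X vP vhP 0 n, ¬ (f w.1.1 = w.1.2 ∧ f w.2.1 = w.2.2) := by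
      intro w hw
      apply h3
      simp only [cspOf, List.mem_append]
      exact Or.inr (Or.inl hw)
    have hQ : ∀ w ∈ holdWires X vQ vhQ n n, ¬ (f w.1.1 = w.1.2 ∧ f w.2.1 = w.2.2) := by
      intro w hw
      apply h3
      simp only [cspOf, List.mem_append]
      exact Or.inr (Or.inr (Or.inl hw))
    have hC : ∀ i C, φ[i]? = some C → ∀ w ∈ clauseWires i C,
        ¬ (f w.1.1 = w.1.2 ∧ f w.2.1 = w.2.2) := by
      intro i C hic w hw
      apply h3
      simp only [cspOf, List.mem_append]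
      refine Or.inr (Or.inr (Or.inr ?_))
      rw [List.mem_flatMap]
      exact ⟨(C, i), List.mem_zipIdx_iff_getElem?.2 hic, hw⟩
    refine ⟨h1, h2, ?_, ?_, ?_, ?_, ?_, ?_, ?_, ?_, ?_, ?_, ?_, ?_, ?_, ?_⟩
    · exact h3 ((vhP, 0), (vhQ, 0)) (by simp [cspOf])
    · exact h3 ((vβ, 1), (vhP, 1)) (by simp [cspOf])
    · exact h3 ((vβ, 2), (vhQ, 1)) (by simp [cspOf])
    · exact h3 ((vz, 1), (Sum.inl (X 0), 0)) (by simp [cspOf])
    · exact h3 ((vz, 1), (vhP, 0)) (by simp [cspOf])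
    · intro i hi
      have := hP ((vP i, 0), (Sum.inl (X (0 + i)), 1)) (by
        rw [holdWires, List.mem_flatMap]
        exact ⟨i, List.mem_range.2 hi, by simp⟩)
      simpa using this
    · intro i hi
      have := hP ((vP i, 1), (Sum.inl (X (0 + i)), 0)) (by
        rw [holdWires, List.mem_flatMap]
        exact ⟨i, List.mem_range.2 hi, by simp⟩)
      simpa using this
    · intro i hi
      have := hP ((vP i, 2), (vhP, 1)) (by
        rw [holdWires, List.mem_flatMap]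
        exact ⟨i, List.mem_range.2 hi, by simp⟩)
      simpa using this
    · intro i hi
      have := hQ ((vQ i, 0), (Sum.inl (X (n + i)), 1)) (by
        rw [holdWires, List.mem_flatMap]
        exact ⟨i, List.mem_range.2 hi, by simp⟩)
      simpa using this
    · intro i hi
      have := hQ ((vQ i, 1), (Sum.inl (X (n + i)), 0)) (by
        rw [holdWires, List.mem_flatMap]
        exact ⟨i, List.mem_range.2 hi, by simp⟩)
      simpa using this
    · intro i hi
      have := hQ ((vQ i, 2), (vhQ, 1)) (by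
        rw [holdWires, List.mem_flatMap]
        exact ⟨i, List.mem_range.2 hi, by simp⟩)
      simpa using this
    · intro i C hic j l hjl
      exact hC i C hic ((vc i j, 0), (Sum.inl l.2, if l.1 then 0 else 1)) (by
        rw [clauseWires, List.mem_flatMap]
        exact ⟨(l, j), List.mem_zipIdx_iff_getElem?.2 hjl, by simp⟩)
    · intro i C hic j hj
      have hjl : C[j]? = some C[j] := List.getElem?_eq_getElem (by omega)
      have := hC i C hic ((vc i j, 1), if j + 1 < C.length then (vc i (j + 1), 2) else (vβ, 0)) (by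
        rw [clauseWires, List.mem_flatMap]
        exact ⟨(C[j], j), List.mem_zipIdx_iff_getElem?.2 hjl, by simp⟩)
      rw [if_pos hj] at this
      exact this
    · intro i C hic j hj
      have hjl : C[j]? = some C[j] := List.getElem?_eq_getElem (by omega)
      have := hC i C hic ((vc i j, 1), if j + 1 < C.length then (vc i (j + 1), 2) else (vβ, 0)) (by
        rw [clauseWires, List.mem_flatMap]
        exact ⟨(C[j], j), List.mem_zipIdx_iff_getElem?.2 hjl, by simp⟩)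
      rw [if_neg (by omega)] at this
      exact this
  · intro h
    refine ⟨h.le2, h.two, ?_⟩
    intro w hw
    simp only [cspOf, List.mem_append, List.mem_cons, List.not_mem_nil, or_false] at hw
    rcases hw with (rfl | rfl | rfl | rfl | rfl) | hw | hw | hw
    · exact h.w1
    · exact h.w2
    · exact h.w3
    · exact h.w4
    · exact h.w5
    · rw [holdWires, List.mem_flatMap] at hw
      obtain ⟨i, hi, hw⟩ := hw
      rw [List.mem_range] at hi
      simp only [List.mem_cons, List.not_mem_nil, or_false, zero_add] at hw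
      rcases hw with rfl | rfl | rfl
      · exact h.p0 i hi
      · exact h.p1 i hi
      · exact h.p2 i hi
    · rw [holdWires, List.mem_flatMap] at hw
      obtain ⟨i, hi, hw⟩ := hw
      rw [List.mem_range] at hi
      simp only [List.mem_cons, List.not_mem_nil, or_false] at hw
      rcases hw with rfl | rfl | rfl
      · exact h.q0 i hi
      · exact h.q1 i hi
      · exact h.q2 i hi
    · rw [List.mem_flatMap] at hw
      obtain ⟨⟨C, i⟩, hic, hw⟩ := hw
      rw [List.mem_zipIdx_iff_getElem?] at hic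
      simp only at hic hw
      rw [clauseWires, List.mem_flatMap] at hw
      obtain ⟨⟨l, j⟩, hjl, hw⟩ := hw
      rw [List.mem_zipIdx_iff_getElem?] at hjl
      simp only [List.mem_cons, List.not_mem_nil, or_false] at hjl hw
      rcases hw with rfl | rfl
      · exact h.c0 i C hic j l hjl
      · have hj : j < C.length := by
          by_contra hn
          rw [List.getElem?_eq_none (by omega)] at hjl
          simp at hjl
        by_cases hj' : j + 1 < C.length
        · rw [if_pos hj']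
          exact h.c1 i C hic j hj'
        · rw [if_neg hj']
          exact h.c2 i C hic j (by omega)

/-! ### Reachability through hybrids -/

open Classical in
/-- the values of `F` on `S` and of `f` elsewhere -/
noncomputable def hyb {A : Type} (S : Set A) (F f : A → ℕ) : A → ℕ :=
  fun x => if x ∈ S then F x else f x

lemma hyb_mem {A : Type} {S : Set A} {F f : A → ℕ} {x : A} (h : x ∈ S) :
    hyb S F f x = F x := by
  classical
  exact if_pos h

lemma hyb_not {A : Type} {S : Set A} {F f : A → ℕ} {x : A} (h : x ∉ S) :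
    hyb S F f x = f x := by
  classical
  exact if_neg h

lemma step_symm {A : Type} {I : Csp A} {f g : A → ℕ} (h : I.Step f g) : I.Step g f := by
  obtain ⟨h1, h2, x, hx⟩ := h
  exact ⟨h2, h1, x, fun y hy => (hx y hy).symm⟩

/-- reachability -/
abbrev Rea {A : Type} (I : Csp A) (f g : A → ℕ) : Prop := Relation.ReflTransGen I.Step f g

lemma rea_symm {A : Type} {I : Csp A} {f g : A → ℕ} (h : Rea I f g) : Rea I g f := by
  induction h with
  | refl => exact Relation.ReflTransGen.refl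
  | tail _ h2 ih => exact (Relation.ReflTransGen.single (step_symm h2)).trans ih

lemma reach_rk {A : Type} (I : Csp A) (L : Set A) (hL : L.Finite) (rk : A → ℕ) (F f : A → ℕ)
    (h : ∀ S ⊆ L, (∀ x ∈ S, ∀ y ∈ L, rk y < rk x → y ∈ S) → I.Sol (hyb S F f)) :
    Rea I f (hyb L F f) := by
  classical
  have key : ∀ (m : ℕ) (S : Finset A), S.card = m → (S : Set A) ⊆ L →
      (∀ x ∈ S, ∀ y ∈ L, rk y < rk x → y ∈ S) → Rea I f (hyb (S : Set A) F f) := by
    intro m
    induction m with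
    | zero =>
      intro S hS _ _
      rw [Finset.card_eq_zero] at hS
      subst hS
      have : hyb ((∅ : Finset A) : Set A) F f = f := by
        funext x
        exact hyb_not (by simp)
      rw [this]
    | succ m ih =>
      intro S hS hSL hSc
      have hne : S.Nonempty := by
        rw [← Finset.card_pos]
        omega
      obtain ⟨x, hx, hmax⟩ := Finset.exists_max_image S rk hne
      have hcl : ∀ a ∈ S.erase x, ∀ y ∈ L, rk y < rk a → y ∈ S.erase x := by
        intro a ha y hy hya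
        rw [Finset.mem_erase] at ha ⊢
        refine ⟨?_, hSc a ha.2 y hy hya⟩
        rintro rfl
        have := hmax a ha.2
        omega
      have hsub : ((S.erase x : Finset A) : Set A) ⊆ L :=
        (Finset.coe_subset.2 (Finset.erase_subset x S)).trans hSL
      have h1 := ih (S.erase x) (by rw [Finset.card_erase_of_mem hx]; omega) hsub hcl
      refine h1.tail ⟨h _ hsub hcl, h _ hSL hSc, x, ?_⟩
      intro y hy
      by_cases hyS : y ∈ S
      · rw [hyb_mem (by exact_mod_cast hyS), hyb_mem (by simp [hy, hyS])]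
      · rw [hyb_not (by exact_mod_cast hyS), hyb_not (by simp [hyS])]
  have := key hL.toFinset.card hL.toFinset rfl (by simp) (by
    intro x _ y hy _
    simpa using hy)
  rwa [Set.Finite.coe_toFinset] at this

/-! ### The finite box of relevant variables -/

/-- bound for the indices -/
def bd (φ : List (List (Bool × V))) (n : ℕ) : ℕ := 4 + n + φ.length + φ.flatten.length

lemma len_le {φ : List (List (Bool × V))} {C : List (Bool × V)} {i : ℕ} (h : φ[i]? = some C)
    (n : ℕ) : i < bd φ n ∧ C.length < bd φ n := by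
  have h1 : C ∈ φ := List.mem_of_getElem? h
  have h2 := (List.sublist_flatten_of_mem h1).length_le
  have h3 : i < φ.length := by
    by_contra hn
    rw [List.getElem?_eq_none (by omega)] at h
    simp at h
  unfold bd
  omega

/-- relevant variables of the formula -/
def relv (φ : List (List (Bool × V))) (X : ℕ → V) (n : ℕ) : Set V :=
  {x | x ∈ φ.flatten.map Prod.snd} ∪ X '' (Set.Iio (2 * n))

/-- relevant variables -/
def box (φ : List (List (Bool × V))) (X : ℕ → V) (n : ℕ) : Set (XL V) :=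
  Sum.inl '' relv φ X n ∪
    Sum.inr '' (Set.Iio 4 ×ˢ (Set.Iio (bd φ n) ×ˢ Set.Iio (bd φ n)))

lemma box_finite (φ : List (List (Bool × V))) (X : ℕ → V) (n : ℕ) : (box φ X n).Finite := by
  apply Set.Finite.union
  · apply Set.Finite.image
    apply Set.Finite.union
    · exact List.finite_toSet _
    · exact (Set.finite_Iio _).image _
  · apply Set.Finite.image
    exact (Set.finite_Iio _).prod ((Set.finite_Iio _).prod (Set.finite_Iio _))

lemma box_inr {φ : List (List (Bool × V))} {X : ℕ → V} {n : ℕ} {a b c : ℕ} :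
    (Sum.inr (a, b, c) : XL V) ∈ box φ X n ↔ a < 4 ∧ b < bd φ n ∧ c < bd φ n := by
  simp [box]

lemma box_X {φ : List (List (Bool × V))} {X : ℕ → V} {n : ℕ} {i : ℕ} (h : i < 2 * n) :
    (Sum.inl (X i) : XL V) ∈ box φ X n :=
  Or.inl ⟨X i, Or.inr ⟨i, h, rfl⟩, rfl⟩

lemma box_lit {φ : List (List (Bool × V))} {X : ℕ → V} {n : ℕ} {i j : ℕ}
    {C : List (Bool × V)} {l : Bool × V} (h : φ[i]? = some C) (h' : C[j]? = some l) :
    (Sum.inl l.2 : XL V) ∈ box φ X n := by
  refine Or.inl ⟨l.2, Or.inl ?_, rfl⟩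
  rw [Set.mem_ofPred_eq, List.mem_map]
  exact ⟨l, List.mem_flatten.2 ⟨C, List.mem_of_getElem? h, List.mem_of_getElem? h'⟩, rfl⟩

/-- rank: order of the changes -/
def rk (B : ℕ) : XL V → ℕ
  | Sum.inl _ => 4 + B
  | Sum.inr (0, 0, _) => 0
  | Sum.inr (0, 3, _) => 2
  | Sum.inr (0, _, _) => 1
  | Sum.inr (3, _, j) => 3 + (B - j)
  | Sum.inr (_, _, _) => 2

/-- bit as a number -/
def bt (b : Bool) : ℕ := if b then 1 else 0

/-- idle state holding the first register -/
def FP (ρ : V → Bool) (v : ℕ → Bool) : XL V → ℕ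
  | Sum.inl x => bt (ρ x)
  | Sum.inr (0, 1, 0) => 1
  | Sum.inr (0, 3, 0) => 2
  | Sum.inr (1, i, 0) => bt (v i)
  | Sum.inr (2, _, 0) => 2
  | Sum.inr (3, _, _) => 1
  | _ => 0

/-- idle state holding the second register -/
def FQ (ρ : V → Bool) (w : ℕ → Bool) : XL V → ℕ
  | Sum.inl x => bt (ρ x)
  | Sum.inr (0, 2, 0) => 1
  | Sum.inr (0, 3, 0) => 1
  | Sum.inr (1, _, 0) => 2
  | Sum.inr (2, i, 0) => bt (w i)
  | Sum.inr (3, _, _) => 1
  | _ => 0

/-- first true literal -/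
def ft (φ : List (List (Bool × V))) (τ : V → Bool) (i : ℕ) : ℕ :=
  (φ.getD i []).findIdx (fun l => τ l.2 == l.1)

/-- active state -/
def FA (φ : List (List (Bool × V))) (τ : V → Bool) (v w : ℕ → Bool) : XL V → ℕ
  | Sum.inl x => bt (τ x)
  | Sum.inr (0, 1, 0) => 1
  | Sum.inr (0, 2, 0) => 1
  | Sum.inr (1, i, 0) => bt (v i)
  | Sum.inr (2, i, 0) => bt (w i)
  | Sum.inr (3, i, j) => if j < ft φ τ i then 1 else if j = ft φ τ i then 0 else 2
  | _ => 0

section vals

variable {φ : List (List (Bool × V))} {X : ℕ → V} {n : ℕ}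

lemma bt_le (b : Bool) : bt b ≤ 1 := by cases b <;> simp [bt]

lemma rk_z (B : ℕ) : rk B (vz : XL V) = 0 := rfl
lemma rk_hP (B : ℕ) : rk B (vhP : XL V) = 1 := rfl
lemma rk_hQ (B : ℕ) : rk B (vhQ : XL V) = 1 := rfl
lemma rk_β (B : ℕ) : rk B (vβ : XL V) = 2 := rfl
lemma rk_P (B i : ℕ) : rk B (vP i : XL V) = 2 := rfl
lemma rk_Q (B i : ℕ) : rk B (vQ i : XL V) = 2 := rfl
lemma rk_c (B i j : ℕ) : rk B (vc i j : XL V) = 3 + (B - j) := rfl
lemma rk_l (B : ℕ) (x : V) : rk B (Sum.inl x : XL V) = 4 + B := rfl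

lemma bd4 : 4 ≤ bd φ n := by unfold bd; omega
lemma bdn : n ≤ bd φ n := by unfold bd; omega

lemma mz : (vz : XL V) ∈ box φ X n := by
  have := bd4 (φ := φ) (n := n)
  exact box_inr.2 ⟨by omega, by omega, by omega⟩
lemma mhP : (vhP : XL V) ∈ box φ X n := by
  have := bd4 (φ := φ) (n := n)
  exact box_inr.2 ⟨by omega, by omega, by omega⟩
lemma mhQ : (vhQ : XL V) ∈ box φ X n := by
  have := bd4 (φ := φ) (n := n)
  exact box_inr.2 ⟨by omega, by omega, by omega⟩
lemma mβ : (vβ : XL V) ∈ box φ X n := by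
  have := bd4 (φ := φ) (n := n)
  exact box_inr.2 ⟨by omega, by omega, by omega⟩
lemma mP {i : ℕ} (h : i < n) : (vP i : XL V) ∈ box φ X n := by
  have := bd4 (φ := φ) (n := n)
  have := bdn (φ := φ) (n := n)
  exact box_inr.2 ⟨by omega, by omega, by omega⟩
lemma mQ {i : ℕ} (h : i < n) : (vQ i : XL V) ∈ box φ X n := by
  have := bd4 (φ := φ) (n := n)
  have := bdn (φ := φ) (n := n)
  exact box_inr.2 ⟨by omega, by omega, by omega⟩
lemma mc {i j : ℕ} {C : List (Bool × V)} (h : φ[i]? = some C) (hj : j < C.length) :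
    (vc i j : XL V) ∈ box φ X n := by
  have := len_le h n
  exact box_inr.2 ⟨by omega, by omega, by omega⟩

lemma FP_le2 (ρ : V → Bool) (v : ℕ → Bool) (x : XL V) : FP ρ v x ≤ 2 := by
  unfold FP
  split <;> first | omega | exact le_trans (bt_le _) (by omega)

lemma FQ_le2 (ρ : V → Bool) (v : ℕ → Bool) (x : XL V) : FQ ρ v x ≤ 2 := by
  unfold FQ
  split <;> first | omega | exact le_trans (bt_le _) (by omega)

lemma FA_le2 (τ : V → Bool) (v w : ℕ → Bool) (x : XL V) : FA φ τ v w x ≤ 2 := by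
  unfold FA
  split <;> first | omega | exact le_trans (bt_le _) (by omega) | (split_ifs <;> omega)

lemma two_cases {x : XL V} (h : twoX x = true) : (∃ y, x = Sum.inl y) ∨
    (∃ b c, b ≠ 3 ∧ x = Sum.inr (0, b, c)) ∨ ∃ i, x = Sum.inr (3, i, 0) := by
  rcases x with y | ⟨a, b, c⟩
  · exact Or.inl ⟨y, rfl⟩
  · simp only [twoX, decide_eq_true_eq] at h
    rcases h with ⟨rfl, h⟩ | ⟨rfl, rfl⟩
    · exact Or.inr (Or.inl ⟨b, c, h, rfl⟩)
    · exact Or.inr (Or.inr ⟨b, rfl⟩)

lemma FP_two (ρ : V → Bool) (v : ℕ → Bool) (x : XL V) (h : twoX x = true) : FP ρ v x ≤ 1 := by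
  rcases two_cases h with ⟨y, rfl⟩ | ⟨b, c, h, rfl⟩ | ⟨i, rfl⟩
  · exact bt_le _
  · unfold FP
    split <;> simp_all
  · exact le_refl _

lemma FQ_two (ρ : V → Bool) (v : ℕ → Bool) (x : XL V) (h : twoX x = true) : FQ ρ v x ≤ 1 := by
  rcases two_cases h with ⟨y, rfl⟩ | ⟨b, c, h, rfl⟩ | ⟨i, rfl⟩
  · exact bt_le _
  · unfold FQ
    split <;> simp_all
  · exact le_refl _

lemma FA_two (τ : V → Bool) (v w : ℕ → Bool) (x : XL V) (h : twoX x = true) :
    FA φ τ v w x ≤ 1 := by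
  rcases two_cases h with ⟨y, rfl⟩ | ⟨b, c, h, rfl⟩ | ⟨i, rfl⟩
  · exact bt_le _
  · unfold FA
    split <;> simp_all
  · change (if 0 < ft φ τ i then 1 else if 0 = ft φ τ i then 0 else 2) ≤ 1
    split_ifs <;> omega

lemma hyb_le {A : Type} {S : Set A} {F f : A → ℕ} {x : A} {m : ℕ} (h1 : F x ≤ m) (h2 : f x ≤ m) :
    hyb S F f x ≤ m := by
  by_cases h : x ∈ S
  · rwa [hyb_mem h]
  · rwa [hyb_not h]

lemma hold_val {f : XL V → ℕ} (h : SolC φ X n f) {i : ℕ} (hi : i < n) {v : ℕ → Bool}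
    (hv : f (vP i) = bt (v i)) : f (Sum.inl (X i)) = bt (v i) := by
  have h0 := h.p0 i hi
  have h1 := h.p1 i hi
  have h2 := h.two (Sum.inl (X i)) rfl
  rw [hv] at h0 h1
  cases hvi : v i
  · rw [hvi] at h0
    simp only [bt] at h0 ⊢
    simp at h0 ⊢
    omega
  · rw [hvi] at h1
    simp only [bt] at h1 ⊢
    simp at h1 ⊢
    omega

lemma hold_valQ {f : XL V → ℕ} (h : SolC φ X n f) {i : ℕ} (hi : i < n) {v : ℕ → Bool}
    (hv : f (vQ i) = bt (v i)) : f (Sum.inl (X (n + i))) = bt (v i) := by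
  have h0 := h.q0 i hi
  have h1 := h.q1 i hi
  have h2 := h.two (Sum.inl (X (n + i))) rfl
  rw [hv] at h0 h1
  cases hvi : v i
  · rw [hvi] at h0
    simp only [bt] at h0 ⊢
    simp at h0 ⊢
    omega
  · rw [hvi] at h1
    simp only [bt] at h1 ⊢
    simp at h1 ⊢
    omega

/-- the value of a hybrid when both functions agree -/
lemma hyb_eq {A : Type} {S : Set A} {F f : A → ℕ} {x : A} {m : ℕ} (h1 : F x = m) (h2 : f x = m) :
    hyb S F f x = m := by
  by_cases h : x ∈ S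
  · rwa [hyb_mem h]
  · rwa [hyb_not h]

lemma solP {f : XL V → ℕ} (h : SolC φ X n f) (hh : f vhP = 1) {v : ℕ → Bool}
    (hv : ∀ i < n, f (vP i) = bt (v i)) {ρ : V → Bool} (hρ : ∀ i < n, ρ (X i) = v i)
    {S : Set (XL V)} (hc : ∀ x ∈ S, ∀ y ∈ box φ X n, rk (bd φ n) y < rk (bd φ n) x → y ∈ S) :
    SolC φ X n (hyb S (FP ρ v) f) := by
  have e1 : hyb S (FP ρ v) f vhP = 1 := hyb_eq rfl hh
  have eP : ∀ i < n, hyb S (FP ρ v) f (vP i) = bt (v i) := fun i hi => hyb_eq rfl (hv i hi)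
  have eX : ∀ i < n, hyb S (FP ρ v) f (Sum.inl (X i)) = bt (v i) := fun i hi =>
    hyb_eq (by change bt (ρ (X i)) = _; rw [hρ i hi]) (hold_val h hi (hv i hi))
  have m1 : ∀ {x y : XL V}, x ∉ S → x ∈ box φ X n → rk (bd φ n) x < rk (bd φ n) y → y ∉ S :=
    fun hx hxb hr hy => hx (hc _ hy _ hxb hr)
  refine ⟨?_, ?_, ?_, ?_, ?_, ?_, ?_, ?_, ?_, ?_, ?_, ?_, ?_, ?_, ?_, ?_⟩
  · exact fun x => hyb_le (FP_le2 ρ v x) (h.le2 x)
  · exact fun x hx => hyb_le (FP_two ρ v x hx) (h.two x hx)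
  · rw [e1]; simp
  · by_cases hS : vβ ∈ S
    · rw [hyb_mem hS]
      rintro ⟨h1, -⟩
      exact absurd h1 (by change ¬ (2 = 1); omega)
    · rw [hyb_not hS, e1]
      intro h1
      exact h.w2 ⟨h1.1, hh⟩
  · by_cases hS : vhQ ∈ S
    · rw [hyb_mem hS]
      rintro ⟨-, h1⟩
      exact absurd h1 (by change ¬ (0 = 1); omega)
    · have h2 : vβ ∉ S := m1 hS mhQ (by rw [rk_hQ, rk_β]; omega)
      rw [hyb_not hS, hyb_not h2]
      exact h.w3
  · by_cases hS : vz ∈ S
    · rw [hyb_mem hS]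
      rintro ⟨h1, -⟩
      exact absurd h1 (by change ¬ (0 = 1); omega)
    · have h2 : (Sum.inl (X 0) : XL V) ∉ S := m1 hS mz (by rw [rk_z, rk_l]; omega)
      rw [hyb_not hS, hyb_not h2]
      exact h.w4
  · rw [e1]; simp
  · intro i hi
    rw [eP i hi, eX i hi]
    omega
  · intro i hi
    rw [eP i hi, eX i hi]
    omega
  · intro i hi
    rw [eP i hi]
    have := bt_le (v i)
    omega
  · intro i hi
    by_cases hS : (vQ i : XL V) ∈ S
    · rw [hyb_mem hS]
      rintro ⟨h1, -⟩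
      exact absurd h1 (by change ¬ (2 = 0); omega)
    · have h2 : (Sum.inl (X (n + i)) : XL V) ∉ S := m1 hS (mQ hi) (by rw [rk_Q, rk_l]; omega)
      rw [hyb_not hS, hyb_not h2]
      exact h.q0 i hi
  · intro i hi
    by_cases hS : (vQ i : XL V) ∈ S
    · rw [hyb_mem hS]
      rintro ⟨h1, -⟩
      exact absurd h1 (by change ¬ (2 = 1); omega)
    · have h2 : (Sum.inl (X (n + i)) : XL V) ∉ S := m1 hS (mQ hi) (by rw [rk_Q, rk_l]; omega)
      rw [hyb_not hS, hyb_not h2]
      exact h.q1 i hi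
  · intro i hi
    by_cases hS : (vhQ : XL V) ∈ S
    · rw [hyb_mem hS]
      rintro ⟨-, h1⟩
      exact absurd h1 (by change ¬ (0 = 1); omega)
    · have h2 : (vQ i : XL V) ∉ S := m1 hS mhQ (by rw [rk_Q, rk_hQ]; omega)
      rw [hyb_not hS, hyb_not h2]
      exact h.q2 i hi
  · intro i C hiC j l hjl
    have hj : j < C.length := by
      by_contra hn
      rw [List.getElem?_eq_none (by omega)] at hjl
      simp at hjl
    by_cases hS : (vc i j : XL V) ∈ S
    · rw [hyb_mem hS]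
      rintro ⟨h1, -⟩
      exact absurd h1 (by change ¬ (1 = 0); omega)
    · have h2 : (Sum.inl l.2 : XL V) ∉ S := m1 hS (mc hiC hj) (by rw [rk_c, rk_l]; omega)
      rw [hyb_not hS, hyb_not h2]
      exact h.c0 i C hiC j l hjl
  · intro i C hiC j hj
    by_cases hS : (vc i (j + 1) : XL V) ∈ S
    · rw [hyb_mem hS]
      rintro ⟨-, h1⟩
      exact absurd h1 (by change ¬ (1 = 2); omega)
    · have h2 : (vc i j : XL V) ∉ S := m1 hS (mc hiC hj) (by
        have := len_le hiC n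
        rw [rk_c, rk_c]; omega)
      rw [hyb_not hS, hyb_not h2]
      exact h.c1 i C hiC j hj
  · intro i C hiC j hj
    by_cases hS : (vβ : XL V) ∈ S
    · rw [hyb_mem hS]
      rintro ⟨-, h1⟩
      exact absurd h1 (by change ¬ (2 = 0); omega)
    · have h2 : (vc i j : XL V) ∉ S := m1 hS mβ (by rw [rk_c, rk_β]; omega)
      rw [hyb_not hS, hyb_not h2]
      exact h.c2 i C hiC j hj

lemma solQ {f : XL V → ℕ} (h : SolC φ X n f) (hh : f vhQ = 1) {v : ℕ → Bool}
    (hv : ∀ i < n, f (vQ i) = bt (v i)) {ρ : V → Bool} (hρ : ∀ i < n, ρ (X (n + i)) = v i)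
    {S : Set (XL V)} (hc : ∀ x ∈ S, ∀ y ∈ box φ X n, rk (bd φ n) y < rk (bd φ n) x → y ∈ S) :
    SolC φ X n (hyb S (FQ ρ v) f) := by
  have e1 : hyb S (FQ ρ v) f vhQ = 1 := hyb_eq rfl hh
  have eP : ∀ i < n, hyb S (FQ ρ v) f (vQ i) = bt (v i) := fun i hi => hyb_eq rfl (hv i hi)
  have eX : ∀ i < n, hyb S (FQ ρ v) f (Sum.inl (X (n + i))) = bt (v i) := fun i hi =>
    hyb_eq (by change bt (ρ (X (n + i))) = _; rw [hρ i hi]) (hold_valQ h hi (hv i hi))
  have m1 : ∀ {x y : XL V}, x ∉ S → x ∈ box φ X n → rk (bd φ n) x < rk (bd φ n) y → y ∉ S :=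
    fun hx hxb hr hy => hx (hc _ hy _ hxb hr)
  refine ⟨?_, ?_, ?_, ?_, ?_, ?_, ?_, ?_, ?_, ?_, ?_, ?_, ?_, ?_, ?_, ?_⟩
  · exact fun x => hyb_le (FQ_le2 ρ v x) (h.le2 x)
  · exact fun x hx => hyb_le (FQ_two ρ v x hx) (h.two x hx)
  · rw [e1]; simp
  · by_cases hS : vhP ∈ S
    · rw [hyb_mem hS]
      rintro ⟨-, h1⟩
      exact absurd h1 (by change ¬ (0 = 1); omega)
    · have h2 : vβ ∉ S := m1 hS mhP (by rw [rk_hP, rk_β]; omega)
      rw [hyb_not hS, hyb_not h2]
      exact h.w2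
  · by_cases hS : vβ ∈ S
    · rw [hyb_mem hS]
      rintro ⟨h1, -⟩
      exact absurd h1 (by change ¬ (1 = 2); omega)
    · rw [hyb_not hS, e1]
      intro h1
      exact h.w3 ⟨h1.1, hh⟩
  · by_cases hS : vz ∈ S
    · rw [hyb_mem hS]
      rintro ⟨h1, -⟩
      exact absurd h1 (by change ¬ (0 = 1); omega)
    · have h2 : (Sum.inl (X 0) : XL V) ∉ S := m1 hS mz (by rw [rk_z, rk_l]; omega)
      rw [hyb_not hS, hyb_not h2]
      exact h.w4
  · by_cases hS : vz ∈ S
    · rw [hyb_mem hS]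
      rintro ⟨h1, -⟩
      exact absurd h1 (by change ¬ (0 = 1); omega)
    · have h2 : (vhP : XL V) ∉ S := m1 hS mz (by rw [rk_z, rk_hP]; omega)
      rw [hyb_not hS, hyb_not h2]
      exact h.w5
  · intro i hi
    by_cases hS : (vP i : XL V) ∈ S
    · rw [hyb_mem hS]
      rintro ⟨h1, -⟩
      exact absurd h1 (by change ¬ (2 = 0); omega)
    · have h2 : (Sum.inl (X i) : XL V) ∉ S := m1 hS (mP hi) (by rw [rk_P, rk_l]; omega)
      rw [hyb_not hS, hyb_not h2]
      exact h.p0 i hi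
  · intro i hi
    by_cases hS : (vP i : XL V) ∈ S
    · rw [hyb_mem hS]
      rintro ⟨h1, -⟩
      exact absurd h1 (by change ¬ (2 = 1); omega)
    · have h2 : (Sum.inl (X i) : XL V) ∉ S := m1 hS (mP hi) (by rw [rk_P, rk_l]; omega)
      rw [hyb_not hS, hyb_not h2]
      exact h.p1 i hi
  · intro i hi
    by_cases hS : (vhP : XL V) ∈ S
    · rw [hyb_mem hS]
      rintro ⟨-, h1⟩
      exact absurd h1 (by change ¬ (0 = 1); omega)
    · have h2 : (vP i : XL V) ∉ S := m1 hS mhP (by rw [rk_P, rk_hP]; omega)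
      rw [hyb_not hS, hyb_not h2]
      exact h.p2 i hi
  · intro i hi
    rw [eP i hi, eX i hi]
    omega
  · intro i hi
    rw [eP i hi, eX i hi]
    omega
  · intro i hi
    rw [eP i hi]
    have := bt_le (v i)
    omega
  · intro i C hiC j l hjl
    have hj : j < C.length := by
      by_contra hn
      rw [List.getElem?_eq_none (by omega)] at hjl
      simp at hjl
    by_cases hS : (vc i j : XL V) ∈ S
    · rw [hyb_mem hS]
      rintro ⟨h1, -⟩
      exact absurd h1 (by change ¬ (1 = 0); omega)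
    · have h2 : (Sum.inl l.2 : XL V) ∉ S := m1 hS (mc hiC hj) (by rw [rk_c, rk_l]; omega)
      rw [hyb_not hS, hyb_not h2]
      exact h.c0 i C hiC j l hjl
  · intro i C hiC j hj
    by_cases hS : (vc i (j + 1) : XL V) ∈ S
    · rw [hyb_mem hS]
      rintro ⟨-, h1⟩
      exact absurd h1 (by change ¬ (1 = 2); omega)
    · have h2 : (vc i j : XL V) ∉ S := m1 hS (mc hiC hj) (by
        have := len_le hiC n
        rw [rk_c, rk_c]; omega)
      rw [hyb_not hS, hyb_not h2]
      exact h.c1 i C hiC j hj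
  · intro i C hiC j hj
    by_cases hS : (vβ : XL V) ∈ S
    · rw [hyb_mem hS]
      rintro ⟨-, h1⟩
      exact absurd h1 (by change ¬ (1 = 0); omega)
    · have h2 : (vc i j : XL V) ∉ S := m1 hS mβ (by rw [rk_c, rk_β]; omega)
      rw [hyb_not hS, hyb_not h2]
      exact h.c2 i C hiC j hj

lemma reachP {f : XL V → ℕ} (h : SolC φ X n f) (hh : f vhP = 1) {v : ℕ → Bool}
    (hv : ∀ i < n, f (vP i) = bt (v i)) {ρ : V → Bool} (hρ : ∀ i < n, ρ (X i) = v i) :
    Rea (cspOf φ X n) f (hyb (box φ X n) (FP ρ v) f) :=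
  reach_rk _ _ (box_finite φ X n) (rk (bd φ n)) _ _ fun _ _ hS =>
    (sol_iff _ _ _ _).2 (solP h hh hv hρ hS)

lemma reachQ {f : XL V → ℕ} (h : SolC φ X n f) (hh : f vhQ = 1) {v : ℕ → Bool}
    (hv : ∀ i < n, f (vQ i) = bt (v i)) {ρ : V → Bool} (hρ : ∀ i < n, ρ (X (n + i)) = v i) :
    Rea (cspOf φ X n) f (hyb (box φ X n) (FQ ρ v) f) :=
  reach_rk _ _ (box_finite φ X n) (rk (bd φ n)) _ _ fun _ _ hS =>
    (sol_iff _ _ _ _).2 (solQ h hh hv hρ hS)

lemma solA {f : XL V → ℕ} (hf : ∀ x, f x ≤ 2) (hf' : ∀ x, twoX x = true → f x ≤ 1)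
    {v w : ℕ → Bool} {τ : V → Bool}
    (hτ : ∀ c ∈ φ, ∃ l ∈ c, τ l.2 = l.1) (h1 : ∀ i < n, τ (X i) = v i)
    (h2 : ∀ i < n, τ (X (n + i)) = w i) :
    SolC φ X n (hyb (box φ X n) (FA φ τ v w) f) := by
  have m : ∀ {x : XL V}, x ∈ box φ X n → hyb (box φ X n) (FA φ τ v w) f x = FA φ τ v w x :=
    fun hx => hyb_mem hx
  have eX : ∀ i < n, FA φ τ v w (Sum.inl (X i)) = bt (v i) := fun i hi => by
    change bt (τ (X i)) = _
    rw [h1 i hi]
  have eY : ∀ i < n, FA φ τ v w (Sum.inl (X (n + i))) = bt (w i) := fun i hi => by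
    change bt (τ (X (n + i))) = _
    rw [h2 i hi]
  have mX : ∀ i < n, (Sum.inl (X i) : XL V) ∈ box φ X n := fun i hi => box_X (by omega)
  have mY : ∀ i < n, (Sum.inl (X (n + i)) : XL V) ∈ box φ X n := fun i hi => box_X (by omega)
  have eC : ∀ i j, FA φ τ v w (vc i j) =
      if j < ft φ τ i then 1 else if j = ft φ τ i then 0 else 2 := fun i j => rfl
  have hft : ∀ i C, φ[i]? = some C → ft φ τ i = C.findIdx (fun l => τ l.2 == l.1) := by
    intro i C hiC
    unfold ft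
    rw [List.getD_eq_getElem?_getD, hiC]
    rfl
  have hlt : ∀ i C, φ[i]? = some C → ft φ τ i < C.length := by
    intro i C hiC
    rw [hft i C hiC, List.findIdx_lt_length]
    obtain ⟨l, hl, hl'⟩ := hτ C (List.mem_of_getElem? hiC)
    exact ⟨l, hl, by simpa using hl'⟩
  refine ⟨?_, ?_, ?_, ?_, ?_, ?_, ?_, ?_, ?_, ?_, ?_, ?_, ?_, ?_, ?_, ?_⟩
  · exact fun x => hyb_le (FA_le2 τ v w x) (hf x)
  · exact fun x hx => hyb_le (FA_two τ v w x hx) (hf' x hx)
  · rw [m mhP, m mhQ]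
    change ¬ (1 = 0 ∧ 1 = 0)
    omega
  · rw [m mβ, m mhP]
    change ¬ (0 = 1 ∧ 1 = 1)
    omega
  · rw [m mβ, m mhQ]
    change ¬ (0 = 2 ∧ 1 = 1)
    omega
  · rw [m mz]
    rintro ⟨h3, -⟩
    exact absurd h3 (by change ¬ (0 = 1); omega)
  · rw [m mz]
    rintro ⟨h3, -⟩
    exact absurd h3 (by change ¬ (0 = 1); omega)
  · intro i hi
    rw [m (mP hi), m (mX i hi), eX i hi]
    change ¬ (bt (v i) = 0 ∧ _)
    omega
  · intro i hi
    rw [m (mP hi), m (mX i hi), eX i hi]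
    change ¬ (bt (v i) = 1 ∧ _)
    omega
  · intro i hi
    rw [m (mP hi)]
    change ¬ (bt (v i) = 2 ∧ _)
    have := bt_le (v i)
    omega
  · intro i hi
    rw [m (mQ hi), m (mY i hi), eY i hi]
    change ¬ (bt (w i) = 0 ∧ _)
    omega
  · intro i hi
    rw [m (mQ hi), m (mY i hi), eY i hi]
    change ¬ (bt (w i) = 1 ∧ _)
    omega
  · intro i hi
    rw [m (mQ hi)]
    change ¬ (bt (w i) = 2 ∧ _)
    have := bt_le (w i)
    omega
  · intro i C hiC j l hjl
    have hj : j < C.length := by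
      by_contra hn
      rw [List.getElem?_eq_none (by omega)] at hjl
      simp at hjl
    rw [m (mc hiC hj), m (box_lit hiC hjl), eC]
    rintro ⟨h3, h4⟩
    have h5 : j = ft φ τ i := by
      by_contra hne
      rw [if_neg hne] at h3
      split_ifs at h3
    have h6 : τ l.2 = l.1 := by
      have h7 := hft i C hiC
      rw [← h5] at h7
      have h8 : C.findIdx (fun l => τ l.2 == l.1) < C.length := by
        rw [← h7]; exact hj
      have h9 := List.findIdx_getElem (w := h8)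
      have h10 : C[C.findIdx (fun l => τ l.2 == l.1)] = l := by
        have : C[C.findIdx (fun l => τ l.2 == l.1)]? = some l := by
          rw [← h7]; exact hjl
        rw [List.getElem?_eq_getElem h8] at this
        exact Option.some.inj this
      rw [h10] at h9
      simpa using h9
    change bt (τ l.2) = _ at h4
    rw [h6] at h4
    cases hl1 : l.1 <;> rw [hl1] at h4 <;> simp [bt] at h4
  · intro i C hiC j hj
    rw [m (mc hiC (by omega)), m (mc hiC hj), eC, eC]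
    rintro ⟨h3, h4⟩
    split_ifs at h3 h4 <;> omega
  · intro i C hiC j hj
    rw [m (mc hiC (by omega)), m mβ, eC]
    rintro ⟨h3, -⟩
    have := hlt i C hiC
    split_ifs at h3 <;> omega

/-- holding register `P` with value `v` -/
def HP (φ : List (List (Bool × V))) (X : ℕ → V) (n : ℕ) (v : ℕ → Bool) (f : XL V → ℕ) : Prop :=
  SolC φ X n f ∧ f vhP = 1 ∧ ∀ i < n, f (vP i) = bt (v i)

/-- holding register `Q` with value `v` -/
def HQ (φ : List (List (Bool × V))) (X : ℕ → V) (n : ℕ) (v : ℕ → Bool) (f : XL V → ℕ) : Prop :=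
  SolC φ X n f ∧ f vhQ = 1 ∧ ∀ i < n, f (vQ i) = bt (v i)

lemma hyb_hyb {A : Type} (S : Set A) (F G f : A → ℕ) : hyb S F (hyb S G f) = hyb S F f := by
  funext x
  by_cases h : x ∈ S
  · rw [hyb_mem h, hyb_mem h]
  · rw [hyb_not h, hyb_not h, hyb_not h]

lemma HA {f : XL V → ℕ} (hf : ∀ x, f x ≤ 2) (hf' : ∀ x, twoX x = true → f x ≤ 1)
    {v w : ℕ → Bool} {τ : V → Bool}
    (hτ : ∀ c ∈ φ, ∃ l ∈ c, τ l.2 = l.1) (h1 : ∀ i < n, τ (X i) = v i)
    (h2 : ∀ i < n, τ (X (n + i)) = w i) :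
    HP φ X n v (hyb (box φ X n) (FA φ τ v w) f) ∧ HQ φ X n w (hyb (box φ X n) (FA φ τ v w) f) := by
  have h3 := solA hf hf' hτ h1 h2
  refine ⟨⟨h3, hyb_mem mhP, fun i hi => hyb_mem (mP hi)⟩,
    ⟨h3, hyb_mem mhQ, fun i hi => hyb_mem (mQ hi)⟩⟩

lemma fromP {f : XL V → ℕ} {v w : ℕ → Bool} (h : HP φ X n v f)
    (hR : RelE φ X n v w) : ∃ g, Rea (cspOf φ X n) f g ∧ HP φ X n v g ∧ HQ φ X n w g := by
  obtain ⟨τ, hτ, h1, h2⟩ := hR
  obtain ⟨hA, hB⟩ := HA h.1.le2 h.1.two hτ h1 h2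
  refine ⟨_, ?_, hA, hB⟩
  have r1 := reachP h.1 h.2.1 h.2.2 h1
  have r2 := reachP hA.1 hA.2.1 hA.2.2 h1
  rw [hyb_hyb] at r2
  exact r1.trans (rea_symm r2)

lemma fromQ {f : XL V → ℕ} {v w : ℕ → Bool} (h : HQ φ X n w f)
    (hR : RelE φ X n v w) : ∃ g, Rea (cspOf φ X n) f g ∧ HP φ X n v g ∧ HQ φ X n w g := by
  obtain ⟨τ, hτ, h1, h2⟩ := hR
  obtain ⟨hA, hB⟩ := HA h.1.le2 h.1.two hτ h1 h2
  refine ⟨_, ?_, hA, hB⟩
  have r1 := reachQ h.1 h.2.1 h.2.2 h2
  have r2 := reachQ hB.1 hB.2.1 hB.2.2 h2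
  rw [hyb_hyb] at r2
  exact r1.trans (rea_symm r2)

lemma walk (hr : ∀ v, RelE φ X n v v) {v w : ℕ → Bool}
    (h : Relation.EqvGen (RelE φ X n) v w) :
    (∀ f, HP φ X n v f → ∃ g, Rea (cspOf φ X n) f g ∧ HP φ X n w g) ∧
    (∀ f, HP φ X n w f → ∃ g, Rea (cspOf φ X n) f g ∧ HP φ X n v g) := by
  induction h with
  | rel a b hab =>
    constructor
    · intro f hf
      obtain ⟨g, h1, -, h2⟩ := fromP hf hab
      obtain ⟨g', h3, h4, -⟩ := fromQ h2 (hr b)
      exact ⟨g', h1.trans h3, h4⟩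
    · intro f hf
      obtain ⟨g, h1, -, h2⟩ := fromP hf (hr b)
      obtain ⟨g', h3, h4, -⟩ := fromQ h2 hab
      exact ⟨g', h1.trans h3, h4⟩
  | refl a =>
    exact ⟨fun f hf => ⟨f, Relation.ReflTransGen.refl, hf⟩,
      fun f hf => ⟨f, Relation.ReflTransGen.refl, hf⟩⟩
  | symm a b _ ih => exact ⟨ih.2, ih.1⟩
  | trans a b c _ _ ih1 ih2 =>
    constructor
    · intro f hf
      obtain ⟨g, h1, h2⟩ := ih1.1 f hf
      obtain ⟨g', h3, h4⟩ := ih2.1 g h2
      exact ⟨g', h1.trans h3, h4⟩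
    · intro f hf
      obtain ⟨g, h1, h2⟩ := ih2.2 f hf
      obtain ⟨g', h3, h4⟩ := ih1.2 g h2
      exact ⟨g', h1.trans h3, h4⟩

lemma le1_cases {m : ℕ} (h : m ≤ 1) (h0 : m ≠ 0) : m = 1 := by omega

lemma regP {f : XL V → ℕ} (h : SolC φ X n f) (hh : f vhP = 1) :
    ∀ i < n, f (vP i) = bt (decide (f (vP i) = 1)) := by
  intro i hi
  have h1 := h.p2 i hi
  have h2 := h.le2 (vP i)
  by_cases h3 : f (vP i) = 1
  · simp [bt, h3]
  · simp only [bt, h3, decide_false]
    simp only [Bool.false_eq_true, if_false]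
    omega

lemma regQ {f : XL V → ℕ} (h : SolC φ X n f) (hh : f vhQ = 1) :
    ∀ i < n, f (vQ i) = bt (decide (f (vQ i) = 1)) := by
  intro i hi
  have h1 := h.q2 i hi
  have h2 := h.le2 (vQ i)
  by_cases h3 : f (vQ i) = 1
  · simp [bt, h3]
  · simp only [bt, h3, decide_false]
    simp only [Bool.false_eq_true, if_false]
    omega

lemma hQ_of {f : XL V → ℕ} (h : SolC φ X n f) (hh : f vhP ≠ 1) : f vhQ = 1 := by
  have h1 := h.w1
  have h2 := h.two vhP rfl
  have h3 := h.two vhQ rfl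
  omega

lemma bt_inj {a b : Bool} (h : bt a = bt b) : a = b := by
  cases a <;> cases b <;> simp [bt] at h <;> rfl

lemma dec_bt {m : ℕ} {b : Bool} (h : m = bt b) : decide (m = 1) = b := by
  subst h
  cases b <;> simp [bt]

lemma active_rel (hr : ∀ v, RelE φ X n v v) {f : XL V → ℕ} (h : SolC φ X n f)
    (h1 : f vhP = 1) (h2 : f vhQ = 1) {v w : ℕ → Bool} (hv : ∀ i < n, f (vP i) = bt (v i))
    (hw : ∀ i < n, f (vQ i) = bt (w i)) : RelE φ X n v w := by
  have hβ : f vβ = 0 := by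
    have := h.w2
    have := h.w3
    have := h.le2 vβ
    omega
  refine ⟨fun x => decide (f (Sum.inl x) = 1), ?_, ?_, ?_⟩
  · intro C hC
    obtain ⟨i, hi, hiC⟩ := List.mem_iff_getElem.1 hC
    have hiC' : φ[i]? = some C := by rw [List.getElem?_eq_getElem hi, hiC]
    have hne : 0 < C.length := by
      obtain ⟨τ, hτ, -, -⟩ := hr v
      obtain ⟨l, hl, -⟩ := hτ C hC
      exact List.length_pos_of_mem hl
    have key : ∃ j < C.length, f (vc i j) = 0 := by
      by_contra hno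
      push Not at hno
      have hall : ∀ j, j < C.length → f (vc i j) = 1 := by
        intro j
        induction j with
        | zero =>
          intro hj
          exact le1_cases (h.two (vc i 0) (by simp [vc, twoX])) (hno 0 hj)
        | succ j ih =>
          intro hj
          have h3 := ih (by omega)
          have h4 := h.c1 i C hiC' j hj
          have h5 := h.le2 (vc i (j + 1))
          have h6 := hno (j + 1) hj
          omega
      have h7 := h.c2 i C hiC' (C.length - 1) (by omega)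
      exact h7 ⟨hall _ (by omega), hβ⟩
    obtain ⟨j, hj, hj0⟩ := key
    refine ⟨C[j], List.getElem_mem hj, ?_⟩
    have h3 := h.c0 i C hiC' j C[j] (List.getElem?_eq_getElem hj)
    have h4 := h.two (Sum.inl C[j].2) rfl
    cases h5 : C[j].1
    · rw [h5] at h3
      simp only [Bool.false_eq_true, if_false] at h3
      simp only [decide_eq_false_iff_not]
      intro h6
      exact h3 ⟨hj0, h6⟩
    · rw [h5] at h3
      simp only [if_true] at h3
      simp only [decide_eq_true_eq]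
      by_contra h6
      exact h3 ⟨hj0, by omega⟩
  · intro i hi
    exact dec_bt (hold_val h hi (hv i hi))
  · intro i hi
    exact dec_bt (hold_valQ h hi (hw i hi))

/-- the value of a state -/
def Val (n : ℕ) (v : ℕ → Bool) (f : XL V → ℕ) : Prop :=
  (f vhP = 1 ∧ ∀ i < n, f (vP i) = bt (v i)) ∨ (f vhP ≠ 1 ∧ ∀ i < n, f (vQ i) = bt (v i))

lemma val_step (hr : ∀ v, RelE φ X n v v) {f g : XL V → ℕ} (hs : (cspOf φ X n).Step f g)
    {v : ℕ → Bool} (hv : Val n v f) :
    ∃ w, Val n w g ∧ Relation.EqvGen (RelE φ X n) v w := by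
  obtain ⟨hf, hg, x, hx⟩ := hs
  rw [sol_iff] at hf hg
  by_cases hgP : g vhP = 1
  · rcases hv with ⟨hfP, hv⟩ | ⟨hfP, hv⟩
    · refine ⟨v, Or.inl ⟨hgP, ?_⟩, Relation.EqvGen.refl _⟩
      intro i hi
      by_cases hxi : vP i = x
      · have h1 : g (Sum.inl (X i)) = f (Sum.inl (X i)) := hx _ (by
          rw [← hxi]; simp [vP])
        rw [hold_val hf hi (hv i hi)] at h1
        have h2 := hg.p0 i hi
        have h3 := hg.p1 i hi
        have h4 := hg.p2 i hi
        have h5 := hg.le2 (vP i)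
        have h6 := bt_le (v i)
        omega
      · rw [hx _ hxi]
        exact hv i hi
    · -- `hP` was switched on: `g` is active
      have hgQ : g vhQ = 1 := by
        have h1 := hQ_of hf hfP
        by_cases h2 : (vhP : XL V) = x
        · rw [hx vhQ (by rw [← h2]; simp [vhP, vhQ]), h1]
        · exact absurd ((hx _ h2).symm.trans hgP) hfP
      have hxP : (vhP : XL V) = x := by
        by_contra h2
        exact hfP ((hx _ h2).symm.trans hgP)
      refine ⟨_, Or.inl ⟨hgP, regP hg hgP⟩, Relation.EqvGen.symm _ _ (Relation.EqvGen.rel _ _ ?_)⟩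
      refine active_rel hr hg hgP hgQ (regP hg hgP) ?_
      intro i hi
      rw [hx _ (by rw [← hxP]; simp [vhP, vQ])]
      exact hv i hi
  · rcases hv with ⟨hfP, hv⟩ | ⟨hfP, hv⟩
    · have hgQ := hQ_of hg hgP
      have hxP : (vhP : XL V) = x := by
        by_contra h2
        exact hgP ((hx _ h2).trans hfP)
      have hfQ : f vhQ = 1 := by
        rw [← hx vhQ (by rw [← hxP]; simp [vhP, vhQ]), hgQ]
      refine ⟨_, Or.inr ⟨hgP, regQ hg hgQ⟩, Relation.EqvGen.rel _ _ ?_⟩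
      refine active_rel hr hf hfP hfQ hv ?_
      intro i hi
      rw [← hx (vQ i) (by rw [← hxP]; simp [vhP, vQ])]
      exact regQ hg hgQ i hi
    · refine ⟨v, Or.inr ⟨hgP, ?_⟩, Relation.EqvGen.refl _⟩
      have hgQ := hQ_of hg hgP
      intro i hi
      by_cases hxi : vQ i = x
      · have h1 : g (Sum.inl (X (n + i))) = f (Sum.inl (X (n + i))) := hx _ (by
          rw [← hxi]; simp [vQ])
        rw [hold_valQ hf hi (hv i hi)] at h1
        have h2 := hg.q0 i hi
        have h3 := hg.q1 i hi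
        have h4 := hg.q2 i hi
        have h5 := hg.le2 (vQ i)
        have h6 := bt_le (v i)
        omega
      · rw [hx _ hxi]
        exact hv i hi

lemma val_reach (hr : ∀ v, RelE φ X n v v) {f g : XL V → ℕ} (hs : Rea (cspOf φ X n) f g)
    {v : ℕ → Bool} (hv : Val n v f) :
    ∃ w, Val n w g ∧ Relation.EqvGen (RelE φ X n) v w := by
  induction hs with
  | refl => exact ⟨v, hv, Relation.EqvGen.refl _⟩
  | tail _ h2 ih =>
    obtain ⟨w, h3, h4⟩ := ih
    obtain ⟨w', h5, h6⟩ := val_step hr h2 h3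
    exact ⟨w', h5, Relation.EqvGen.trans _ _ _ h4 h6⟩

lemma set_z {f : XL V → ℕ} {v : ℕ → Bool} (h : HP φ X n v f) (hn : 0 < n) (hv : v 0 = true) :
    ∃ g, Rea (cspOf φ X n) f g ∧ g vz = 1 := by
  have hX := hold_val h.1 hn (h.2.2 0 hn)
  have hX1 : f (Sum.inl (X 0)) = 1 := by rw [hX, hv]; rfl
  have hne : ∀ y : XL V, y ≠ vz → hyb {vz} (fun _ => 1) f y = f y := fun y hy => hyb_not hy
  have hz : hyb {vz} (fun _ => 1) f (vz : XL V) = 1 := hyb_mem rfl
  have eX : ∀ x : V, hyb {vz} (fun _ => 1) f (Sum.inl x : XL V) = f (Sum.inl x) :=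
    fun x => hne _ (by simp [vz])
  have e1 : hyb {vz} (fun _ => 1) f (vhP : XL V) = f vhP := hne _ (by simp [vz, vhP])
  have e2 : hyb {vz} (fun _ => 1) f (vhQ : XL V) = f vhQ := hne _ (by simp [vz, vhQ])
  have e3 : hyb {vz} (fun _ => 1) f (vβ : XL V) = f vβ := hne _ (by simp [vz, vβ])
  have e4 : ∀ i, hyb {vz} (fun _ => 1) f (vP i : XL V) = f (vP i) :=
    fun i => hne _ (by simp [vz, vP])
  have e5 : ∀ i, hyb {vz} (fun _ => 1) f (vQ i : XL V) = f (vQ i) :=
    fun i => hne _ (by simp [vz, vQ])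
  have e6 : ∀ i j, hyb {vz} (fun _ => 1) f (vc i j : XL V) = f (vc i j) :=
    fun i j => hne _ (by simp [vz, vc])
  have hsol : SolC φ X n (hyb {vz} (fun _ => 1) f) := by
    have h' := h.1
    refine ⟨fun x => hyb_le (by omega) (h'.le2 x), fun x hx => hyb_le (by omega) (h'.two x hx),
      ?_, ?_, ?_, ?_, ?_, ?_, ?_, ?_, ?_, ?_, ?_, ?_, ?_, ?_⟩
    · rw [e1, e2]; exact h'.w1
    · rw [e1, e3]; exact h'.w2
    · rw [e3, e2]; exact h'.w3
    · rw [hz, eX, hX1]; simp
    · rw [hz, e1, h.2.1]; simp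
    · intro i hi; rw [e4, eX]; exact h'.p0 i hi
    · intro i hi; rw [e4, eX]; exact h'.p1 i hi
    · intro i hi; rw [e4, e1]; exact h'.p2 i hi
    · intro i hi; rw [e5, eX]; exact h'.q0 i hi
    · intro i hi; rw [e5, eX]; exact h'.q1 i hi
    · intro i hi; rw [e5, e2]; exact h'.q2 i hi
    · intro i C hiC j l hjl; rw [e6, eX]; exact h'.c0 i C hiC j l hjl
    · intro i C hiC j hj; rw [e6, e6]; exact h'.c1 i C hiC j hj
    · intro i C hiC j hj; rw [e6, e3]; exact h'.c2 i C hiC j hj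
  exact ⟨_, Relation.ReflTransGen.single ⟨(sol_iff _ _ _ _).2 h.1, (sol_iff _ _ _ _).2 hsol,
    vz, fun y hy => hne y hy⟩, hz⟩

end vals

/-- T3 -/
theorem csp_good {V : Type} (φ : List (List (Bool × V))) (X : ℕ → V) (n : ℕ)
    (hX : Function.Injective X) (hn : 0 < n) (hr : ∀ v, RelE φ X n v v) :
    (cspOf φ X n).Good ↔ ∀ v : ℕ → Bool, ∃ w, w 0 = true ∧ Relation.EqvGen (RelE φ X n) v w := by
  constructor
  · intro hG v
    obtain ⟨τ, hτ, h1, h2⟩ := hr v
    obtain ⟨hA, -⟩ := HA (φ := φ) (X := X) (n := n) (f := fun _ => 0) (by intro x; omega)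
      (by intro x _; omega) hτ h1 h2
    obtain ⟨g, hfg, hgz⟩ := hG _ ((sol_iff _ _ _ _).2 hA.1)
    obtain ⟨w, hw, hvw⟩ := val_reach hr hfg (Or.inl ⟨hA.2.1, hA.2.2⟩)
    refine ⟨w, ?_, hvw⟩
    have hg : SolC φ X n g := by
      rw [← sol_iff]
      rcases Relation.ReflTransGen.cases_tail hfg with h3 | ⟨c, -, h4⟩
      · rw [h3]; exact (sol_iff _ _ _ _).2 hA.1
      · exact h4.2.1
    have hz : g vz = 1 := hgz
    have h5 := hg.w5
    have h6 := hg.w4
    have h7 := hg.two vhP rfl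
    have hP : g vhP = 1 := by omega
    rcases hw with ⟨-, hw⟩ | ⟨h8, -⟩
    · have h9 := hold_val hg hn (hw 0 hn)
      cases h10 : w 0
      · rw [h10] at h9
        exact absurd ⟨hz, h9⟩ h6
      · rfl
    · exact absurd hP h8
  · intro H f hf
    rw [sol_iff] at hf
    have h1 : ∃ v g, Rea (cspOf φ X n) f g ∧ HP φ X n v g := by
      by_cases hP : f vhP = 1
      · exact ⟨_, f, Relation.ReflTransGen.refl, hf, hP, regP hf hP⟩
      · have hQ := hQ_of hf hP
        obtain ⟨g, h2, h3, -⟩ := fromQ (φ := φ) (X := X) (n := n) ⟨hf, hQ, regQ hf hQ⟩ (hr _)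
        exact ⟨_, g, h2, h3⟩
    obtain ⟨v, g, h2, h3⟩ := h1
    obtain ⟨w, hw, hvw⟩ := H v
    obtain ⟨g', h4, h5⟩ := (walk hr hvw).1 g h3
    obtain ⟨g'', h6, h7⟩ := set_z h5 hn hw
    exact ⟨g'', (h2.trans h4).trans h6, h7⟩

end Pool.Agent.NPC.Mix.T3
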